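import Pool.Agent.Helper57.SL.Stmts

/-! Row UPS of the sheet `Helper57/SL/Stmts.lean`. -/

set_option autoImplicit false

namespace Pool.Agent.Helper4.SL

open MeasureTheory Set Filter Topology
open Pool.Agent.Helper57.QZ (Pr tor circ aa Zy Wy Sy Vy Ky pt lin Good zA Pz)
open Pool.Agent.Helper57.SI (fej fc gc Kk zz ww)
open Pool.Agent.Helper57.SJ (PP)
open Pool.Agent.Helper57.SL

theorem ups_z {H : ℝ} (hL : 32 ≤ Real.log (Real.log H))
    (hLh : Real.log (Real.log H) ^ 10 ≤ Real.log H) :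
    Real.log H ≤ 32 * Real.log (Real.log H) * (zz H : ℝ) ∧
    Real.log (Real.log H) ≤ (zz H : ℝ) ∧
    Real.log (Real.log H) / 4 ≤ Real.log (zz H : ℝ) - 3 ∧
    Real.log H * Real.log (Real.log H) ^ 10 / 2 ≤ (YY H : ℝ) ∧
    (YY H : ℝ) ≤ Real.log H * Real.log (Real.log H) ^ 10 ∧
    2 ≤ YY H ∧ Real.log (YY H : ℝ) ≤ 2 * Real.log (Real.log H) := by
  set h := Real.log H with hh
  set L := Real.log h with hLd
  have hL0 : 0 < L := by linarith
  have p2 : 32 * L ≤ L ^ 2 := by nlinarith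
  have p3 : 32 * L ^ 2 ≤ L ^ 3 := by
    have : L ^ 3 = L * L ^ 2 := by ring
    rw [this]
    exact mul_le_mul_of_nonneg_right hL (by positivity)
  have q2 : L ^ 2 ≤ L ^ 10 := pow_le_pow_right₀ (by linarith) (by norm_num)
  have q3 : L ^ 3 ≤ L ^ 10 := pow_le_pow_right₀ (by linarith) (by norm_num)
  have q4 : L ^ 4 ≤ L ^ 10 := pow_le_pow_right₀ (by linarith) (by norm_num)
  have h32 : 32 * L ≤ h := by linarith
  have hh0 : 0 < h := by linarith
  have hK1 : (Kk H : ℝ) ≤ 2 * L := by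
    have : (Kk H : ℝ) < L + 1 := by
      unfold Kk
      rw [← hh, ← hLd]
      exact Nat.ceil_lt_add_one hL0.le
    linarith
  have hK0 : 0 < (Kk H : ℝ) := by
    have : L ≤ (Kk H : ℝ) := by
      unfold Kk
      rw [← hh, ← hLd]
      exact Nat.le_ceil _
    linarith
  have hz1 : h / (16 * L) - 1 ≤ (zz H : ℝ) := by
    have a1 := Nat.sub_one_lt_floor (h / (8 * (Kk H : ℝ)))
    have a2 : h / (16 * L) ≤ h / (8 * (Kk H : ℝ)) :=
      div_le_div_of_nonneg_left hh0.le (by positivity) (by linarith)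
    unfold zz
    rw [← hh]
    linarith
  have hz2 : h / (32 * L) ≤ (zz H : ℝ) := by
    have a1 : 1 ≤ h / (32 * L) := by rw [le_div_iff₀ (by positivity)]; linarith
    have a2 : h / (16 * L) = 2 * (h / (32 * L)) := by field_simp; norm_num
    linarith
  have hz3 : h ≤ 32 * L * (zz H : ℝ) := by
    rw [div_le_iff₀ (by positivity)] at hz2
    linarith
  have hzL : L ≤ (zz H : ℝ) := by
    refine le_trans ?_ hz2
    rw [le_div_iff₀ (by positivity)]
    have : L * (32 * L) = 32 * L ^ 2 := by ring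
    linarith
  have hz0 : 0 < (zz H : ℝ) := by linarith
  have hlz : L / 2 ≤ Real.log (zz H : ℝ) := by
    have a1 : (32 * L) ^ 2 ≤ h := by
      have b1 : (32 * L) ^ 2 ≤ (L ^ 2) ^ 2 := pow_le_pow_left₀ (by positivity) p2 2
      have b2 : (L ^ 2) ^ 2 = L ^ 4 := by ring
      linarith
    have a2 : h * (32 * L) ^ 2 ≤ (zz H : ℝ) ^ 2 * (32 * L) ^ 2 := by
      have b1 : h * (32 * L) ^ 2 ≤ h * h := mul_le_mul_of_nonneg_left a1 hh0.le
      have b2 : h * h ≤ (32 * L * (zz H : ℝ)) * (32 * L * (zz H : ℝ)) :=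
        mul_le_mul hz3 hz3 hh0.le (by positivity)
      have b3 : (32 * L * (zz H : ℝ)) * (32 * L * (zz H : ℝ)) =
        (zz H : ℝ) ^ 2 * (32 * L) ^ 2 := by ring
      linarith
    have a3 : h ≤ (zz H : ℝ) ^ 2 := le_of_mul_le_mul_right a2 (by positivity)
    have a4 := Real.log_le_log hh0 a3
    rw [Real.log_pow, ← hLd] at a4
    push_cast at a4
    linarith
  have hY0 : 4 ≤ h * L ^ 10 := by
    have a1 : 32 ≤ L ^ 10 := by nlinarith
    nlinarith
  have hY1 : h * L ^ 10 / 2 ≤ (YY H : ℝ) := by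
    have a1 := Nat.sub_one_lt_floor (h * L ^ 10)
    unfold YY
    rw [← hh, ← hLd]
    linarith
  have hY2 : (YY H : ℝ) ≤ h * L ^ 10 := by
    unfold YY
    rw [← hh, ← hLd]
    exact Nat.floor_le (by positivity)
  have hY3 : 2 ≤ YY H := by
    have : (2 : ℝ) ≤ (YY H : ℝ) := by linarith
    exact_mod_cast this
  refine ⟨hz3, hzL, by linarith, hY1, hY2, hY3, ?_⟩
  have a1 : (YY H : ℝ) ≤ h * h := le_trans hY2 (mul_le_mul_of_nonneg_left hLh hh0.le)
  have a2 := Real.log_le_log (show (0:ℝ) < YY H by linarith) a1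
  rw [Real.log_mul hh0.ne' hh0.ne', ← hLd] at a2
  linarith

theorem ups_H {A B D z₀ : ℝ} : ∃ H₀ : ℝ, 3 ≤ H₀ ∧ ∀ H : ℝ, H₀ ≤ H → 3 ≤ Real.log H ∧
      32 ≤ Real.log (Real.log H) ∧
      Real.log (Real.log H) ^ 10 ≤ Real.log H ∧ 24 * A * (B + 4) ≤ l3 H ∧ 4 ≤ l3 H ∧
      z₀ ≤ Real.log (Real.log H) ∧
      D ≤ Real.log (Real.log H) ∧ 108 * (B + 5) ≤ H := by
  have t1 : Tendsto Real.log atTop atTop := Real.tendsto_log_atTop
  have t2 : Tendsto (fun H => Real.log (Real.log H)) atTop atTop := t1.comp t1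
  have t3 : Tendsto l3 atTop atTop := t1.comp t2
  have t4 : ∀ᶠ x : ℝ in atTop, Real.log x ^ 10 ≤ x := by
    have := (Real.isLittleO_pow_log_id_atTop (n := 10)).bound (show (0:ℝ) < 1 by norm_num)
    filter_upwards [this, eventually_ge_atTop (1:ℝ)] with x hx hx1
    rw [id, Real.norm_of_nonneg (pow_nonneg (Real.log_nonneg hx1) 10),
      Real.norm_of_nonneg (by linarith)] at hx
    linarith
  have t5 : ∀ᶠ H : ℝ in atTop, Real.log (Real.log H) ^ 10 ≤ Real.log H := t1.eventually t4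
  obtain ⟨H₁, h1⟩ := eventually_atTop.1 ((t1.eventually_ge_atTop 3).and
    ((t2.eventually_ge_atTop 32).and (t5.and ((t3.eventually_ge_atTop (24 * A * (B + 4))).and
    ((t3.eventually_ge_atTop 4).and ((t2.eventually_ge_atTop z₀).and
    ((t2.eventually_ge_atTop D).and (eventually_ge_atTop (108 * (B + 5))))))))))
  exact ⟨max H₁ 3, le_max_right _ _, fun H hH => h1 H (le_trans (le_max_left _ _) hH)⟩

theorem ups_e2 {B C c η H σ th : ℝ} {k : ℕ} (hη : 0 < η) (hB : 1 ≤ B)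
    (hC : 0 < C) (hc : 0 < c) (hH3 : 3 ≤ H) (hh3 : 3 ≤ Real.log H)
    (hL : 32 ≤ Real.log (Real.log H)) (hLh : Real.log (Real.log H) ^ 10 ≤ Real.log H)
    (hm : 4 ≤ l3 H)
    (hD : 162 * (B + 5) * C * Real.exp 24 / (η ^ 2 * c ^ 2) ≤ Real.log (Real.log H))
    (hHB : 108 * (B + 5) ≤ H) (hσ : σ ∈ Icc (1 - 1 / l3 H) 1)
    (hth : η * (c * (zz H : ℝ) ^ (1 - σ) / Real.log (Real.log H)) ≤ th)
    (hk1 : (B + 4) * (Real.log H / l3 H) ≤ k) (hk2 : (k : ℝ) ≤ (B + 5) * Real.log H) :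
    (H + 2) * (4 * k + 2) * (k.factorial *
      (C * (1 + Real.log (YY H)) ^ 4 * (YY H : ℝ) ^ (1 - 2 * σ)) ^ k) / th ^ (2 * k) ≤
      H ^ (-B) / 6 := by
  obtain ⟨hz3, hzL, hlz, hY1, hY2, hY3, hY4⟩ := ups_z hL hLh
  have hmd : l3 H = Real.log (Real.log (Real.log H)) := rfl
  set h := Real.log H with hh
  set L := Real.log h with hLd
  set m := l3 H with hm'
  have hL0 : 0 < L := by linarith
  have hh0 : 0 < h := by linarith
  have hm0 : 0 < m := by linarith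
  have hH0 : 0 < H := by linarith
  have hz0 : 0 < (zz H : ℝ) := by linarith
  have hYr : (2 : ℝ) ≤ (YY H : ℝ) := by exact_mod_cast hY3
  have hY0 : 0 < (YY H : ℝ) := by linarith
  have hx0 : 0 ≤ 1 - σ := by linarith [hσ.2]
  have hx1 : (1 - σ) * m ≤ 1 := by
    have : 1 - σ ≤ 1 / m := by linarith [hσ.1]
    rwa [le_div_iff₀ hm0] at this
  have hYz : (YY H : ℝ) ≤ L ^ 12 * (zz H : ℝ) := by
    have a1 : h * L ^ 10 ≤ (32 * L * (zz H : ℝ)) * L ^ 10 :=
      mul_le_mul_of_nonneg_right hz3 (by positivity)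
    have a2 : (32 * L * (zz H : ℝ)) * L ^ 10 ≤ (L * L * (zz H : ℝ)) * L ^ 10 := by
      apply mul_le_mul_of_nonneg_right _ (by positivity)
      apply mul_le_mul_of_nonneg_right _ hz0.le
      exact mul_le_mul_of_nonneg_right hL hL0.le
    have a3 : (L * L * (zz H : ℝ)) * L ^ 10 = L ^ 12 * (zz H : ℝ) := by ring
    linarith
  have hYp : (YY H : ℝ) ^ (1 - 2 * σ) ≤
      2 / (h * L ^ 10) * (Real.exp 24 * (zz H : ℝ) ^ (2 * (1 - σ))) := by
    have b1 : (YY H : ℝ) ^ (1 - 2 * σ) = (YY H : ℝ)⁻¹ * (YY H : ℝ) ^ (2 * (1 - σ)) := by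
      rw [← Real.rpow_neg_one, ← Real.rpow_add hY0]
      congr 1
      ring
    have b2 : (YY H : ℝ) ^ (2 * (1 - σ)) ≤ Real.exp 24 * (zz H : ℝ) ^ (2 * (1 - σ)) := by
      calc (YY H : ℝ) ^ (2 * (1 - σ)) ≤ (L ^ 12 * (zz H : ℝ)) ^ (2 * (1 - σ)) :=
            Real.rpow_le_rpow hY0.le hYz (by linarith)
        _ = (L ^ 12) ^ (2 * (1 - σ)) * (zz H : ℝ) ^ (2 * (1 - σ)) :=
            Real.mul_rpow (by positivity) hz0.le
        _ ≤ Real.exp 24 * (zz H : ℝ) ^ (2 * (1 - σ)) := by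
            apply mul_le_mul_of_nonneg_right _ (by positivity)
            rw [Real.rpow_def_of_pos (by positivity), Real.log_pow]
            apply Real.exp_le_exp.2
            rw [hmd] at hx1
            push_cast
            nlinarith
    have b3 : (YY H : ℝ)⁻¹ ≤ 2 / (h * L ^ 10) := by
      rw [inv_eq_one_div, div_le_div_iff₀ hY0 (by positivity)]
      linarith
    rw [b1]
    exact mul_le_mul b3 b2 (by positivity) (by positivity)
  set S := C * (1 + Real.log (YY H)) ^ 4 * (YY H : ℝ) ^ (1 - 2 * σ) with hS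
  have hlY0 : 0 ≤ Real.log (YY H : ℝ) := Real.log_nonneg (by linarith)
  have hS0 : 0 ≤ S := by positivity
  have hS1 : S ≤ C * (81 * L ^ 4) *
      (2 / (h * L ^ 10) * (Real.exp 24 * (zz H : ℝ) ^ (2 * (1 - σ)))) := by
    apply mul_le_mul _ hYp (by positivity) (by positivity)
    apply mul_le_mul_of_nonneg_left _ hC.le
    calc (1 + Real.log (YY H)) ^ 4 ≤ (3 * L) ^ 4 :=
          pow_le_pow_left₀ (by positivity) (by linarith) 4
      _ = 81 * L ^ 4 := by ring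
  have hthp : 0 < th := lt_of_lt_of_le (by positivity) hth
  have hth2 : η ^ 2 * c ^ 2 * (zz H : ℝ) ^ (2 * (1 - σ)) / L ^ 2 ≤ th ^ 2 := by
    calc η ^ 2 * c ^ 2 * (zz H : ℝ) ^ (2 * (1 - σ)) / L ^ 2
        = (η * (c * (zz H : ℝ) ^ (1 - σ) / L)) ^ 2 := by
          have : (zz H : ℝ) ^ (2 * (1 - σ)) = ((zz H : ℝ) ^ (1 - σ)) ^ 2 := by
            rw [← Real.rpow_natCast, ← Real.rpow_mul hz0.le]
            congr 1
            push_cast
            ring
          rw [this]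
          ring
      _ ≤ th ^ 2 := pow_le_pow_left₀ (by positivity) hth 2
  have hq : k * S / th ^ 2 ≤ 1 / L ^ 2 := by
    rw [div_le_div_iff₀ (by positivity) (by positivity)]
    have a1 : (k : ℝ) * S ≤ ((B + 5) * h) * (C * (81 * L ^ 4) *
        (2 / (h * L ^ 10) * (Real.exp 24 * (zz H : ℝ) ^ (2 * (1 - σ))))) :=
      mul_le_mul hk2 hS1 hS0 (by positivity)
    have a2 : ((B + 5) * h) * (C * (81 * L ^ 4) *
        (2 / (h * L ^ 10) * (Real.exp 24 * (zz H : ℝ) ^ (2 * (1 - σ))))) =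
        (162 * (B + 5) * C * Real.exp 24) * (zz H : ℝ) ^ (2 * (1 - σ)) / L ^ 6 := by
      field_simp
      ring
    have a3 : 162 * (B + 5) * C * Real.exp 24 ≤ L ^ 2 * (η ^ 2 * c ^ 2) := by
      rw [div_le_iff₀ (by positivity)] at hD
      have : L * (η ^ 2 * c ^ 2) ≤ L ^ 2 * (η ^ 2 * c ^ 2) := by
        apply mul_le_mul_of_nonneg_right _ (by positivity)
        nlinarith
      linarith
    have a4 : (162 * (B + 5) * C * Real.exp 24) * (zz H : ℝ) ^ (2 * (1 - σ)) / L ^ 6 * L ^ 2 ≤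
        (L ^ 2 * (η ^ 2 * c ^ 2)) * (zz H : ℝ) ^ (2 * (1 - σ)) / L ^ 6 * L ^ 2 := by
      apply mul_le_mul_of_nonneg_right _ (by positivity)
      apply div_le_div_of_nonneg_right _ (by positivity)
      exact mul_le_mul_of_nonneg_right a3 (by positivity)
    have a5 : (L ^ 2 * (η ^ 2 * c ^ 2)) * (zz H : ℝ) ^ (2 * (1 - σ)) / L ^ 6 * L ^ 2 =
        η ^ 2 * c ^ 2 * (zz H : ℝ) ^ (2 * (1 - σ)) / L ^ 2 := by
      field_simp
    calc k * S * L ^ 2 ≤ ((162 * (B + 5) * C * Real.exp 24) *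
          (zz H : ℝ) ^ (2 * (1 - σ)) / L ^ 6) * L ^ 2 := by
          apply mul_le_mul_of_nonneg_right _ (by positivity)
          rw [← a2]; exact a1
      _ ≤ _ := a4
      _ = _ := a5
      _ ≤ th ^ 2 := hth2
      _ = 1 * th ^ 2 := (one_mul _).symm
  have hpow : (k * S / th ^ 2) ^ k ≤ H ^ (-(2 * (B + 4))) := by
    have b1 : (k * S / th ^ 2) ^ k ≤ (1 / L ^ 2) ^ k :=
      pow_le_pow_left₀ (by positivity) hq k
    have b2 : (1 / L ^ 2) ^ k = Real.exp (-(2 * k * m)) := by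
      have e1 : 1 / L ^ 2 = Real.exp (-(2 * m)) := by
        rw [Real.exp_neg, hmd, one_div, show 2 * Real.log L = Real.log (L ^ 2) by
          rw [Real.log_pow]; norm_num, Real.exp_log (by positivity)]
      rw [e1, ← Real.exp_nat_mul]
      congr 1
      ring
    have b3 : -(2 * k * m) ≤ -(2 * (B + 4) * h) := by
      have c1 : (B + 4) * (h / m) * m ≤ k * m := mul_le_mul_of_nonneg_right hk1 hm0.le
      have c2 : (B + 4) * (h / m) * m = (B + 4) * h := by field_simp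
      rw [c2] at c1
      linarith
    have b4 : Real.exp (-(2 * (B + 4) * h)) = H ^ (-(2 * (B + 4))) := by
      rw [Real.rpow_def_of_pos hH0, ← hh]
      congr 1
      ring
    calc _ ≤ _ := b1
      _ = _ := b2
      _ ≤ Real.exp (-(2 * (B + 4) * h)) := Real.exp_le_exp.2 b3
      _ = _ := b4
  have hfac : (k.factorial * S ^ k) / th ^ (2 * k) ≤ H ^ (-(2 * (B + 4))) := by
    have c1 : ((k.factorial : ℕ) : ℝ) ≤ (k : ℝ) ^ k := by
      exact_mod_cast Nat.factorial_le_pow k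
    calc (k.factorial * S ^ k) / th ^ (2 * k) ≤ ((k : ℝ) ^ k * S ^ k) / th ^ (2 * k) :=
          div_le_div_of_nonneg_right (mul_le_mul_of_nonneg_right c1 (by positivity))
            (by positivity)
      _ = (k * S / th ^ 2) ^ k := by rw [div_pow, mul_pow (k : ℝ) S, ← pow_mul]
      _ ≤ _ := hpow
  have hlH : h ≤ H := by
    have := Real.log_le_sub_one_of_pos (show 0 < H by linarith)
    linarith
  have hkH : (4 * (k : ℝ) + 2) ≤ 6 * (B + 5) * H := by
    have d1 : (B + 5) * h ≤ (B + 5) * H := mul_le_mul_of_nonneg_left hlH (by linarith)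
    nlinarith
  have hlast : 18 * (B + 5) * (H ^ (2 : ℝ) * H ^ (-(2 * (B + 4)))) ≤ H ^ (-B) / 6 := by
    have g1 : H ^ (2 : ℝ) * H ^ (-(2 * (B + 4))) = H ^ (-B) * H ^ (-(B + 6)) := by
      rw [← Real.rpow_add hH0, ← Real.rpow_add hH0]
      congr 1
      ring
    have g2 : H ^ (-(B + 6)) ≤ H ^ (-1 : ℝ) :=
      Real.rpow_le_rpow_of_exponent_le (by linarith) (by linarith)
    have g3 : H ^ (-1 : ℝ) = 1 / H := by rw [Real.rpow_neg_one, one_div]
    have g4 : 18 * (B + 5) * (1 / H) ≤ 1 / 6 := by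
      rw [mul_one_div, div_le_div_iff₀ hH0 (by norm_num)]
      linarith
    have g5 : 0 < H ^ (-B) := Real.rpow_pos_of_pos hH0 _
    rw [g1]
    calc 18 * (B + 5) * (H ^ (-B) * H ^ (-(B + 6)))
        = H ^ (-B) * (18 * (B + 5) * H ^ (-(B + 6))) := by ring
      _ ≤ H ^ (-B) * (18 * (B + 5) * (1 / H)) := by
          apply mul_le_mul_of_nonneg_left _ g5.le
          apply mul_le_mul_of_nonneg_left _ (by positivity)
          rw [← g3]; exact g2
      _ ≤ H ^ (-B) * (1 / 6) := mul_le_mul_of_nonneg_left g4 g5.le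
      _ = _ := by ring
  calc (H + 2) * (4 * k + 2) * (k.factorial * S ^ k) / th ^ (2 * k)
      = ((H + 2) * (4 * k + 2)) * ((k.factorial * S ^ k) / th ^ (2 * k)) := by ring
    _ ≤ ((3 * H) * (6 * (B + 5) * H)) * (H ^ (-(2 * (B + 4)))) := by
        apply mul_le_mul _ hfac (by positivity) (by positivity)
        exact mul_le_mul (by linarith) hkH (by positivity) (by positivity)
    _ = 18 * (B + 5) * (H ^ (2 : ℝ) * H ^ (-(2 * (B + 4)))) := by
        rw [show H ^ (2 : ℝ) = H * H by rw [Real.rpow_two]; ring]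
        ring
    _ ≤ _ := hlast

theorem ups_e3 {A B η : ℝ} (hA : 3 ≤ A) (hη : 0 < η) (hη1 : η < 1) (hB : 1 ≤ B) :
    ∃ T₀ : ℝ, 4 ≤ T₀ ∧ ∀ T : ℝ, T₀ ≤ T → 1 ≤ (zA A T : ℝ) ∧ ∀ H : ℝ, 3 ≤ H →
      3 ≤ Real.log H → H ≤ Real.exp (Real.log T / Real.log (Real.log T)) →
      24 * A * (B + 4) ≤ l3 H → 4 ≤ l3 H →
      Real.log H ≤ Real.log T ∧ 1 ≤ Real.log T ∧
      H + 2 ≤ H ^ (-B) / 6 * T ∧ H + 2 ≤ T ∧
      ∀ k : ℕ, (k : ℝ) ≤ (B + 4) * (Real.log H / l3 H) + 1 → ∀ th : ℝ, η / 4 ≤ th →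
      (H + 2) * (4 * k + 2) * (2 * (zA A T : ℝ) ^ k * (4 * (zA A T : ℝ) ^ 2) ^ (2 * k)) /
        th ^ (2 * k) ≤ H ^ (-B) / 6 * T := by
  set Gc : ℝ := 216 * (B + 5) with hG
  have hG0 : 0 < Gc := by positivity
  have t1 : Tendsto Real.log atTop atTop := Real.tendsto_log_atTop
  have t2 : Tendsto (fun T => Real.log (Real.log T)) atTop atTop := t1.comp t1
  have t4 : Tendsto (fun T => Real.log T ^ A) atTop atTop :=
    (tendsto_rpow_atTop (by linarith)).comp t1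
  have t6 : ∀ᶠ T : ℝ in atTop, ‖Real.log T ^ (6 * A)‖ ≤ 1 / Gc * ‖T ^ (1 / 2 : ℝ)‖ :=
    (isLittleO_log_rpow_rpow_atTop (6 * A) (by norm_num : (0:ℝ) < 1 / 2)).bound
      (by positivity)
  obtain ⟨T₁, h1⟩ := eventually_atTop.1 ((t1.eventually_ge_atTop 1).and
    ((t2.eventually_ge_atTop (16 * (B + 2))).and
    ((t4.eventually_ge_atTop (256 / η ^ 2)).and t6)))
  refine ⟨max T₁ 324, le_trans (by norm_num) (le_max_right _ _), fun T hT => ?_⟩
  obtain ⟨hl1, hll, hlA, hT6⟩ := h1 T (le_trans (le_max_left _ _) hT)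
  have hT4 : 324 ≤ T := le_trans (le_max_right _ _) hT
  have hT0 : 0 < T := by linarith
  set l := Real.log T with hl
  have hl0 : 0 < l := by linarith
  have hη2 : 1 ≤ 256 / η ^ 2 := by
    rw [le_div_iff₀ (by positivity)]
    nlinarith
  have hy1 : 1 ≤ (zA A T : ℝ) := by
    have : 1 ≤ zA A T := by
      unfold zA
      apply Nat.le_floor
      rw [← hl]
      push_cast
      linarith
    exact_mod_cast this
  have hyA : (zA A T : ℝ) ≤ l ^ A := by
    unfold zA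
    rw [← hl]
    exact Nat.floor_le (by positivity)
  refine ⟨hy1, fun H hH3 hhh hHT hm1 hm4 => ?_⟩
  have hH0 : 0 < H := by linarith
  have hll0 : 0 < Real.log l := by nlinarith
  have hh0 : 0 < Real.log H := by linarith
  have hhl : Real.log H ≤ l / Real.log l := by
    have := Real.log_le_log hH0 hHT
    rwa [Real.log_exp] at this
  have hhl1 : Real.log H * Real.log l ≤ l := by
    rwa [le_div_iff₀ hll0] at hhl
  have hhl2 : (B + 2) * Real.log H ≤ l / 16 := by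
    have : Real.log H * (16 * (B + 2)) ≤ Real.log H * Real.log l :=
      mul_le_mul_of_nonneg_left hll hh0.le
    linarith
  have hHl : Real.log H ≤ l := by nlinarith
  have hHB : H ^ (B + 2) ≤ T ^ (1 / 16 : ℝ) := by
    rw [Real.rpow_def_of_pos hH0, Real.rpow_def_of_pos hT0, ← hl]
    apply Real.exp_le_exp.2
    linarith
  have hHBp : 0 < H ^ (-B) := Real.rpow_pos_of_pos hH0 _
  have hHBe : H ^ (-B) * H ^ (B + 2) = H ^ (2 : ℝ) := by
    rw [← Real.rpow_add hH0]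
    congr 1
    ring
  have hH2 : H ^ (2 : ℝ) = H * H := by rw [Real.rpow_two]; ring
  have hT12 : T ^ (1 / 2 : ℝ) * T ^ (1 / 2 : ℝ) = T := by
    rw [← Real.rpow_add hT0]; norm_num
  have hT18 : 18 ≤ T ^ (1 / 2 : ℝ) := by
    have : (18 : ℝ) = 324 ^ (1 / 2 : ℝ) := by
      rw [show (324 : ℝ) = 18 ^ (2 : ℝ) by norm_num, ← Real.rpow_mul (by norm_num)]
      norm_num
    rw [this]
    exact Real.rpow_le_rpow (by norm_num) hT4 (by norm_num)
  have hsm : T ^ (1 / 16 : ℝ) ≤ T ^ (1 / 2 : ℝ) :=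
    Real.rpow_le_rpow_of_exponent_le (by linarith) (by norm_num)
  have hbase : 18 * (H * H) ≤ H ^ (-B) * T := by
    rw [← hH2, ← hHBe]
    have : 18 * H ^ (B + 2) ≤ T := by
      calc 18 * H ^ (B + 2) ≤ T ^ (1 / 2 : ℝ) * T ^ (1 / 2 : ℝ) :=
            mul_le_mul hT18 (le_trans hHB hsm) (by positivity) (by positivity)
        _ = T := hT12
    nlinarith
  have hHB1 : H ^ (-B) ≤ 1 := by
    calc H ^ (-B) ≤ H ^ (0 : ℝ) :=
          Real.rpow_le_rpow_of_exponent_le (by linarith) (by linarith)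
      _ = 1 := Real.rpow_zero _
  have hHT' : H ^ (-B) * T ≤ T := by nlinarith
  refine ⟨hHl, hl1, by nlinarith, by nlinarith, fun k hk2 th hth => ?_⟩
  set h := Real.log H with hh
  set m := l3 H with hm
  set y : ℝ := (zA A T : ℝ) with hy
  have hm0 : 0 < m := by linarith
  have hthp : 0 < th := by linarith
  have hkh : (k : ℝ) ≤ (B + 5) * h := by
    have a1 : h / m ≤ h := div_le_self hh0.le (by linarith)
    have a3 : (B + 4) * (h / m) ≤ (B + 4) * h :=
      mul_le_mul_of_nonneg_left a1 (by linarith)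
    nlinarith
  have hexp : 6 * A * Real.log l * k ≤ l / 4 + 6 * A * Real.log l := by
    have a2 : 6 * A * Real.log l * k ≤ 6 * A * Real.log l * ((B + 4) * (h / m) + 1) :=
      mul_le_mul_of_nonneg_left hk2 (by positivity)
    have a3 : 6 * A * Real.log l * ((B + 4) * (h / m)) ≤ l / 4 := by
      have e1 : 6 * A * Real.log l * ((B + 4) * (h / m)) =
          (24 * A * (B + 4)) * (h * Real.log l) / m / 4 := by
        field_simp
        ring
      rw [e1]
      apply div_le_div_of_nonneg_right _ (by norm_num)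
      rw [div_le_iff₀ hm0]
      calc (24 * A * (B + 4)) * (h * Real.log l) ≤ m * l :=
            mul_le_mul hm1 hhl1 (by positivity) hm0.le
        _ = l * m := by ring
    linarith
  have hpow : (2 * y ^ k * (4 * y ^ 2) ^ (2 * k)) / th ^ (2 * k) ≤
      2 * (T ^ (1 / 4 : ℝ) * l ^ (6 * A)) := by
    have a0 : (2 * y ^ k * (4 * y ^ 2) ^ (2 * k)) / th ^ (2 * k) ≤
        (2 * y ^ k * (4 * y ^ 2) ^ (2 * k)) / (η / 4) ^ (2 * k) :=
      div_le_div_of_nonneg_left (by positivity) (by positivity)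
        (pow_le_pow_left₀ (by positivity) hth _)
    have a1 : (2 * y ^ k * (4 * y ^ 2) ^ (2 * k)) / (η / 4) ^ (2 * k) =
        2 * (256 / η ^ 2 * y ^ 5) ^ k := by
      rw [pow_mul, pow_mul, mul_div_assoc, ← div_pow, mul_assoc, ← mul_pow]
      congr 2
      field_simp
      ring
    have a2 : 256 / η ^ 2 * y ^ 5 ≤ l ^ (6 * A) := by
      have b1 : y ^ 5 ≤ (l ^ A) ^ 5 := pow_le_pow_left₀ (by linarith) hyA 5
      have b2 : 256 / η ^ 2 * y ^ 5 ≤ l ^ A * (l ^ A) ^ 5 :=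
        mul_le_mul hlA b1 (by positivity) (by positivity)
      have b3 : l ^ A * (l ^ A) ^ 5 = l ^ (6 * A) := by
        rw [← Real.rpow_natCast, ← Real.rpow_mul hl0.le, ← Real.rpow_add hl0]
        congr 1
        push_cast
        ring
      linarith
    have a3 : (256 / η ^ 2 * y ^ 5) ^ k ≤ (l ^ (6 * A)) ^ k :=
      pow_le_pow_left₀ (by positivity) a2 k
    have a4 : (l ^ (6 * A)) ^ k = Real.exp (6 * A * Real.log l * k) := by
      rw [← Real.rpow_natCast, ← Real.rpow_mul hl0.le, Real.rpow_def_of_pos hl0]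
      congr 1
      ring
    have a5 : Real.exp (l / 4 + 6 * A * Real.log l) = T ^ (1 / 4 : ℝ) * l ^ (6 * A) := by
      rw [Real.exp_add, Real.rpow_def_of_pos hT0, Real.rpow_def_of_pos hl0, ← hl]
      congr 1
      · congr 1; ring
      · congr 1; ring
    rw [a1] at a0
    have a6 := Real.exp_le_exp.2 hexp
    rw [← a4, a5] at a6
    linarith
  have hT6' : Gc * l ^ (6 * A) ≤ T ^ (1 / 2 : ℝ) := by
    rw [Real.norm_of_nonneg (by positivity), Real.norm_of_nonneg (by positivity)] at hT6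
    have := mul_le_mul_of_nonneg_left hT6 hG0.le
    have e : Gc * (1 / Gc * T ^ (1 / 2 : ℝ)) = T ^ (1 / 2 : ℝ) := by
      field_simp
    rwa [e] at this
  have hlH : h ≤ H := by
    have := Real.log_le_sub_one_of_pos (show 0 < H by linarith)
    linarith
  have hkH : (4 * (k : ℝ) + 2) ≤ 6 * (B + 5) * H := by
    have d1 : (B + 5) * h ≤ (B + 5) * H := mul_le_mul_of_nonneg_left hlH (by linarith)
    nlinarith
  calc (H + 2) * (4 * k + 2) * (2 * y ^ k * (4 * y ^ 2) ^ (2 * k)) / th ^ (2 * k)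
      = ((H + 2) * (4 * k + 2)) * ((2 * y ^ k * (4 * y ^ 2) ^ (2 * k)) / th ^ (2 * k)) := by
        ring
    _ ≤ ((3 * H) * (6 * (B + 5) * H)) * (2 * (T ^ (1 / 4 : ℝ) * l ^ (6 * A))) := by
        apply mul_le_mul _ hpow (by positivity) (by positivity)
        exact mul_le_mul (by linarith) hkH (by positivity) (by positivity)
    _ = H ^ (-B) / 6 * (H ^ (B + 2) * (T ^ (1 / 4 : ℝ) * (Gc * l ^ (6 * A)))) := by
        rw [show H ^ (-B) / 6 * (H ^ (B + 2) * (T ^ (1 / 4 : ℝ) * (Gc * l ^ (6 * A)))) =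
          (H ^ (-B) * H ^ (B + 2)) * (T ^ (1 / 4 : ℝ) * (Gc * l ^ (6 * A))) / 6 by ring,
          hHBe, hH2, hG]
        ring
    _ ≤ H ^ (-B) / 6 * (T ^ (1 / 16 : ℝ) * (T ^ (1 / 4 : ℝ) * T ^ (1 / 2 : ℝ))) := by
        apply mul_le_mul_of_nonneg_left _ (by positivity)
        apply mul_le_mul hHB _ (by positivity) (by positivity)
        exact mul_le_mul_of_nonneg_left hT6' (by positivity)
    _ = H ^ (-B) / 6 * T ^ (13 / 16 : ℝ) := by
        rw [← Real.rpow_add hT0, ← Real.rpow_add hT0]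
        norm_num
    _ ≤ H ^ (-B) / 6 * T := by
        apply mul_le_mul_of_nonneg_left _ (by positivity)
        calc T ^ (13 / 16 : ℝ) ≤ T ^ (1 : ℝ) :=
              Real.rpow_le_rpow_of_exponent_le (by linarith) (by norm_num)
          _ = T := Real.rpow_one T

theorem ups_coef {p j : ℕ} {σ : ℝ} (hp : p.Prime) (hj : j ≤ 1) (hσ : 0 ≤ σ) :
    ‖((Real.log (p : ℝ) ^ j * (p : ℝ) ^ (-σ) : ℝ) : ℂ)‖ * (1 + Real.log (p : ℝ)) ≤
      (1 + Real.log (p : ℝ)) ^ 2 * (p : ℝ) ^ (-σ) ∧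
    0 ≤ ‖((Real.log (p : ℝ) ^ j * (p : ℝ) ^ (-σ) : ℝ) : ℂ)‖ * (1 + Real.log (p : ℝ)) ∧
    (1 + Real.log (p : ℝ)) ^ 2 * (p : ℝ) ^ (-σ) ≤ 4 * p := by
  have hp1 : (1 : ℝ) ≤ p := by exact_mod_cast hp.one_lt.le
  have hp0 : (0 : ℝ) < p := by linarith
  have h2 : 0 ≤ Real.log (p : ℝ) := Real.log_nonneg hp1
  have e : ‖((Real.log (p : ℝ) ^ j * (p : ℝ) ^ (-σ) : ℝ) : ℂ)‖ =
      Real.log (p : ℝ) ^ j * (p : ℝ) ^ (-σ) := by
    rw [Complex.norm_real, Real.norm_of_nonneg (by positivity)]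
  have hps : 0 ≤ (p : ℝ) ^ (-σ) := by positivity
  have hps1 : (p : ℝ) ^ (-σ) ≤ 1 := by
    calc (p : ℝ) ^ (-σ) ≤ (p : ℝ) ^ (0 : ℝ) :=
          Real.rpow_le_rpow_of_exponent_le hp1 (by linarith)
      _ = 1 := Real.rpow_zero _
  rw [e]
  refine ⟨?_, by positivity, ?_⟩
  · have h3 : Real.log (p : ℝ) ^ j ≤ 1 + Real.log (p : ℝ) := by
      interval_cases j
      · simp [h2]
      · simp
    calc Real.log (p : ℝ) ^ j * (p : ℝ) ^ (-σ) * (1 + Real.log (p : ℝ))
        ≤ (1 + Real.log (p : ℝ)) * (p : ℝ) ^ (-σ) * (1 + Real.log (p : ℝ)) := by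
          apply mul_le_mul_of_nonneg_right _ (by linarith)
          exact mul_le_mul_of_nonneg_right h3 hps
      _ = _ := by ring
  · have h1 := Real.log_le_sub_one_of_pos (Real.sqrt_pos.2 hp0)
    rw [Real.log_sqrt hp0.le] at h1
    have h3 : Real.sqrt p * Real.sqrt p = p := Real.mul_self_sqrt hp0.le
    have h4 : 1 + Real.log (p : ℝ) ≤ 2 * Real.sqrt p := by linarith
    have h5 : (1 + Real.log (p : ℝ)) ^ 2 ≤ 4 * p := by
      nlinarith [Real.sqrt_nonneg (p : ℝ)]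
    calc (1 + Real.log (p : ℝ)) ^ 2 * (p : ℝ) ^ (-σ) ≤ (4 * p) * 1 :=
          mul_le_mul h5 hps1 hps (by positivity)
      _ = 4 * p := mul_one _

theorem ups_ts (j : ℕ) (σ : ℝ) (y x : ℕ) (t : ℝ) :
    ts j σ y x (lin y t) = ∑ p ∈ PP x y, ((Real.log (p : ℝ) ^ j * (p : ℝ) ^ (-σ) : ℝ) : ℂ) *
      Complex.exp (-((t * Real.log p : ℝ) * Complex.I)) := by
  have h1 : ts j σ y x (lin y t) = ∑ p : Pr y, (fun p : ℕ => if x < p then
      ((Real.log (p : ℝ) ^ j * (p : ℝ) ^ (-σ) : ℝ) : ℂ) *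
        Complex.exp (-((t * Real.log p : ℝ) * Complex.I)) else 0) (p : ℕ) := rfl
  rw [h1, Finset.sum_coe_sort (Nat.primesBelow (y + 1)) (fun p : ℕ => if x < p then
      ((Real.log (p : ℝ) ^ j * (p : ℝ) ^ (-σ) : ℝ) : ℂ) *
        Complex.exp (-((t * Real.log p : ℝ) * Complex.I)) else 0), ← Finset.sum_filter]
  refine Finset.sum_congr ?_ fun _ _ => rfl
  ext p
  simp only [PP, Finset.mem_filter, Nat.mem_primesBelow, Finset.mem_Icc]
  constructor
  · rintro ⟨⟨h2, h3⟩, h4⟩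
    exact ⟨⟨by omega, by omega⟩, h3⟩
  · rintro ⟨⟨h2, h3⟩, h4⟩
    exact ⟨⟨by omega, h4⟩, by omega⟩

/-- Row UPS. -/
theorem st_UPS (h1 : Pool.Agent.Helper57.SJ.ST_SUP) (h2 : ST_S2L) (h3 : ST_TSS) : ST_UPS := by
  intro η hη A hA B hB
  have hη0 : 0 < η := hη.1
  have hη1 : η < 1 := hη.2
  obtain ⟨c, z₀, hc, hS2L⟩ := h2
  obtain ⟨C, hC, hTSS⟩ := h3
  obtain ⟨H₀, hH₀, fH⟩ := ups_H (A := A) (B := B)
    (D := 162 * (B + 5) * C * Real.exp 24 / (η ^ 2 * c ^ 2)) (z₀ := z₀)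
  obtain ⟨T₀, hT₀, e3⟩ := ups_e3 hA hη0 hη1 hB
  refine ⟨H₀, T₀, hH₀, hT₀, fun T hT H hH hHT => ?_⟩
  obtain ⟨hh3, hL, hLh, hm1, hm4, hz₀, hD, hHB⟩ := fH H hH
  obtain ⟨hy1, e3'⟩ := e3 T hT
  have hH3 : 3 ≤ H := le_trans hH₀ hH
  obtain ⟨hhl, hl1, f1, f2, f3⟩ := e3' H hH3 hh3 hHT hm1 hm4
  obtain ⟨hz3, hzL, hlz, hY1, hY2, hY3, hY4⟩ := ups_z hL hLh
  have hT0 : 0 < T := by linarith
  have hh0 : 0 < Real.log H := by linarith
  have hL0 : 0 < Real.log (Real.log H) := by linarith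
  have hm0 : 0 < l3 H := by linarith
  have hz0 : 0 < (zz H : ℝ) := by linarith
  refine ⟨?_, fun σ hσ => ?_⟩
  · unfold YY zA
    apply Nat.floor_mono
    calc Real.log H * Real.log (Real.log H) ^ 10 ≤ Real.log H * Real.log H :=
          mul_le_mul_of_nonneg_left hLh hh0.le
      _ ≤ Real.log T * Real.log T := mul_le_mul hhl hhl hh0.le (by linarith)
      _ = Real.log T ^ (2 : ℝ) := by rw [Real.rpow_two]; ring
      _ ≤ Real.log T ^ A := Real.rpow_le_rpow_of_exponent_le hl1 (by linarith)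
  have hσ1 : σ ≤ 1 := hσ.2
  have hσ34 : 3 / 4 ≤ σ := by
    have : 1 / l3 H ≤ 1 / 4 := div_le_div_of_nonneg_left (by norm_num) (by norm_num) hm4
    linarith [hσ.1]
  obtain ⟨g1, g2⟩ := hS2L (zz H) (by linarith) σ ⟨hσ34, hσ1⟩
  obtain ⟨th, hthd⟩ : ∃ th : ℝ, th = η * (S2 σ (zz H) / Real.log (Real.log H)) := ⟨_, rfl⟩
  have hth1 : η * (c * (zz H : ℝ) ^ (1 - σ) / Real.log (Real.log H)) ≤ th := by
    rw [hthd]
    exact mul_le_mul_of_nonneg_left (div_le_div_of_nonneg_right g1 hL0.le) hη0.le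
  have hth2 : η / 4 ≤ th := by
    rw [hthd]
    have : 1 / 4 ≤ S2 σ (zz H) / Real.log (Real.log H) := by
      rw [div_le_div_iff₀ (by norm_num) hL0]
      linarith
    nlinarith
  have hthp : 0 < th := by linarith
  have hq0 : 0 ≤ (B + 4) * (Real.log H / l3 H) := by positivity
  obtain ⟨k, hk⟩ : ∃ k : ℕ, k = ⌈(B + 4) * (Real.log H / l3 H)⌉₊ := ⟨_, rfl⟩
  have hk1 : (B + 4) * (Real.log H / l3 H) ≤ k := by
    rw [hk]; exact Nat.le_ceil _
  have hk2 : (k : ℝ) ≤ (B + 4) * (Real.log H / l3 H) + 1 := by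
    rw [hk]; exact (Nat.ceil_lt_add_one hq0).le
  have hk3 : (k : ℝ) ≤ (B + 5) * Real.log H := by
    have a1 : Real.log H / l3 H ≤ Real.log H := div_le_self hh0.le (by linarith)
    have a2 : (B + 4) * (Real.log H / l3 H) ≤ (B + 4) * Real.log H :=
      mul_le_mul_of_nonneg_left a1 (by positivity)
    nlinarith
  have hk4 : 1 ≤ k := by
    rw [hk, Nat.one_le_ceil_iff]
    positivity
  have E2 := ups_e2 hη0 hB hC hc hH3 hh3 hL hLh hm4 hD hHB hσ hth1 hk1 hk3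
  have E3 := f3 k hk2 th hth2
  have key : ∀ j : ℕ, j ≤ 1 → ∃ E : Set ℝ, E ⊆ Icc T (2 * T) ∧
      volume.real E ≤ H ^ (-B) / 2 * T ∧
      ∀ u ∈ Icc T (2 * T), u ∉ E → ∀ t ∈ Icc u (u + H),
        ‖ts j σ (zA A T) (YY H) (lin (zA A T) t)‖ ≤ th := by
    intro j hj
    have hPpr : ∀ p ∈ PP (YY H) (zA A T), p.Prime := fun p hp => (Finset.mem_filter.1 hp).2
    have hPle : ∀ p ∈ PP (YY H) (zA A T), (p : ℝ) ≤ (zA A T : ℝ) := fun p hp => by
      have := (Finset.mem_Icc.1 (Finset.mem_filter.1 hp).1).2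
      exact_mod_cast this
    obtain ⟨E, hE1, hE2, hE3⟩ := h1 (PP (YY H) (zA A T))
      (fun p => ((Real.log (p : ℝ) ^ j * (p : ℝ) ^ (-σ) : ℝ) : ℂ)) (zA A T : ℝ)
      (C * (1 + Real.log (YY H)) ^ 4 * (YY H : ℝ) ^ (1 - 2 * σ)) (4 * (zA A T : ℝ) ^ 2) th H T k
      hPpr hPle hy1 hk4 hthp (by linarith) f2
      (by
        refine le_trans ?_ (hTSS (zA A T) (YY H) hY3 σ ⟨hσ34, hσ1⟩)
        refine Finset.sum_le_sum fun p hp => ?_
        have hc := ups_coef (σ := σ) (hPpr p hp) hj (by linarith)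
        exact pow_le_pow_left₀ hc.2.1 hc.1 2)
      (by
        have a1 : ∑ p ∈ PP (YY H) (zA A T),
            ‖((Real.log (p : ℝ) ^ j * (p : ℝ) ^ (-σ) : ℝ) : ℂ)‖ * (1 + Real.log (p : ℝ)) ≤
            ∑ p ∈ PP (YY H) (zA A T), (4 * (zA A T : ℝ)) :=
          Finset.sum_le_sum fun p hp => by
            have hc := ups_coef (σ := σ) (hPpr p hp) hj (by linarith)
            have hple := hPle p hp
            linarith [hc.1, hc.2.2]
        refine le_trans a1 ?_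
        rw [Finset.sum_const, nsmul_eq_mul]
        have a2 : (PP (YY H) (zA A T)).card ≤ zA A T := by
          unfold PP
          refine le_trans (Finset.card_filter_le _ _) ?_
          rw [Nat.card_Icc]
          omega
        have a3 : ((PP (YY H) (zA A T)).card : ℝ) ≤ (zA A T : ℝ) := by exact_mod_cast a2
        have a4 : ((PP (YY H) (zA A T)).card : ℝ) * (4 * (zA A T : ℝ)) ≤
            (zA A T : ℝ) * (4 * (zA A T : ℝ)) := mul_le_mul_of_nonneg_right a3 (by positivity)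
        linarith)
    refine ⟨E, hE1, ?_, fun u hu huE t ht => ?_⟩
    · refine le_trans hE2 ?_
      have e : (H + 2) * (1 + (4 * k + 2) *
          (T * (k.factorial * (C * (1 + Real.log (YY H)) ^ 4 *
            (YY H : ℝ) ^ (1 - 2 * σ)) ^ k) +
            2 * (zA A T : ℝ) ^ k * (4 * (zA A T : ℝ) ^ 2) ^ (2 * k)) / th ^ (2 * k)) =
          (H + 2) + T * ((H + 2) * (4 * k + 2) * (k.factorial *
            (C * (1 + Real.log (YY H)) ^ 4 * (YY H : ℝ) ^ (1 - 2 * σ)) ^ k) / th ^ (2 * k)) +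
          (H + 2) * (4 * k + 2) * (2 * (zA A T : ℝ) ^ k * (4 * (zA A T : ℝ) ^ 2) ^ (2 * k)) /
            th ^ (2 * k) := by
        ring
      rw [e]
      have := mul_le_mul_of_nonneg_left E2 hT0.le
      linarith
    · rw [ups_ts]
      exact hE3 u hu huE t ht
  obtain ⟨E, hE1, hE2, hE3⟩ := key 0 (by norm_num)
  obtain ⟨F, hF1, hF2, hF3⟩ := key 1 le_rfl
  refine ⟨E ∪ F, union_subset hE1 hF1, ?_, fun u hu huE t ht j hj => ?_⟩
  · have := measureReal_union_le (μ := volume) E F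
    linarith
  · rw [← hthd]
    rcases Nat.le_one_iff_eq_zero_or_eq_one.1 hj with rfl | rfl
    · exact hE3 u hu (fun h => huE (Or.inl h)) t ht
    · exact hF3 u hu (fun h => huE (Or.inr h)) t ht

end Pool.Agent.Helper4.SL
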